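import Pool.Agent.Q228.SAP.AreaR

/-!
Self-avoiding polygons on the square lattice: with `p_{2n}` the number of polygons of perimeter `2n`
and `A_n` their mean area, the sum of `p_{2j} p_{2(n-j)} (A_j + A_{n-j})` over `i ≤ j ≤ n - i` is at
most `K (log n)^2 i^(-1/2) p_{2n} A_n`, and `n p_{2n} p_{2m} (A_n + A_m)` is at most
`K (log m)^2 p_{2(n+m)} A_{n+m}` for `n ≤ m`; a version with the smaller of the two widths is also
proved.
-/

namespace Pool.Agent.Results.MP_2250b1_co.AreaJoin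

/-- a closed nearest-neighbour loop on `ℤ²` with `m` steps, rooted at the origin and oriented,
that visits no vertex twice -/
def IsLoop (m : ℕ) (f : ZMod m → ℤ × ℤ) : Prop :=
  f 0 = 0 ∧ Function.Injective f ∧
    ∀ i : ZMod m, |(f (i + 1)).1 - (f i).1| + |(f (i + 1)).2 - (f i).2| = 1

/-- the width (horizontal extent) of a loop -/
noncomputable def width (m : ℕ) (f : ZMod m → ℤ × ℤ) : ℕ :=
  sSup {w : ℕ | ∃ i j, w = ((f i).1 - (f j).1).natAbs}

/-- the edge from `f k` to `f (k+1)` is horizontal, joins the columns `x = a` and `x = a + 1`, and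
has height larger than `b`: it lies above the unit cell `[a, a+1] × [b, b+1]` -/
def Above (m : ℕ) (f : ZMod m → ℤ × ℤ) (a b : ℤ) (k : ZMod m) : Prop :=
  (((f k).1 = a ∧ (f (k + 1)).1 = a + 1) ∨ ((f k).1 = a + 1 ∧ (f (k + 1)).1 = a)) ∧ b < (f k).2

/-- the unit cell `[a, a+1] × [b, b+1]` is enclosed by the loop: the vertical ray from the cell
upwards crosses an odd number of edges -/
def Encl (m : ℕ) (f : ZMod m → ℤ × ℤ) (c : ℤ × ℤ) : Prop :=
  Odd (Nat.card {k : ZMod m // Above m f c.1 c.2 k})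

/-- the area: the number of unit cells enclosed by the loop -/
noncomputable def area (m : ℕ) (f : ZMod m → ℤ × ℤ) : ℕ := Nat.card {c : ℤ × ℤ // Encl m f c}

/-- the number of self-avoiding polygons of perimeter `2n` on `ℤ²` up to translation: the number
of rooted oriented loops with `2n` steps, divided by `4n` (the choices of the starting point and
of the orientation) -/
noncomputable def p (n : ℕ) : ℝ :=
  (Nat.card {f : ZMod (2 * n) → ℤ × ℤ // IsLoop (2 * n) f} : ℝ) / (4 * (n : ℝ))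

/-- expectation under the uniform law on the (rooted, oriented) self-avoiding polygons of
perimeter `2 n` -/
noncomputable def E (n : ℕ) (F : (ZMod (2 * n) → ℤ × ℤ) → ℝ) : ℝ :=
  (∑ᶠ f ∈ {f : ZMod (2 * n) → ℤ × ℤ | IsLoop (2 * n) f}, F f) /
    ({f : ZMod (2 * n) → ℤ × ℤ | IsLoop (2 * n) f}.ncard : ℝ)

/-- the mean area of the self-avoiding polygons of perimeter `2 n` -/
noncomputable def A (n : ℕ) : ℝ := E n (fun f => (area (2 * n) f : ℝ))

/-- the mean of `min(W, W') (a + a')`, where `(W, a)` and `(W', a')` are the width and the area of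
two independent uniform polygons of perimeters `2 j` and `2 l` -/
noncomputable def B (j l : ℕ) : ℝ :=
  E j (fun f => E l (fun g => ((min (width (2 * j) f) (width (2 * l) g) : ℕ) : ℝ) *
    ((area (2 * j) f : ℝ) + (area (2 * l) g : ℝ))))

lemma p_eq (n : ℕ) : p n = H981.PP n := rfl

lemma A_eq (n : ℕ) : A n = Pool.Agent.H739K.MOM.MK 1 n := by
  unfold Pool.Agent.H739K.MOM.MK
  simp only [pow_one]
  rfl

lemma B_eq {j l : ℕ} (hj : 2 ≤ j) (hl : 2 ≤ l) : p j * p l * B j l =
    Pool.Agent.Q228.SAP.MW2 1 j l / (4 * j) / (4 * (l : ℝ)) := by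
  have h := Pool.Agent.Q228.SAP.me2 hj hl (fun f g =>
    ((min (width (2 * j) f) (width (2 * l) g) : ℕ) : ℝ) *
    ((area (2 * j) f : ℝ) + (area (2 * l) g : ℝ)))
  have h2 : p j * p l * B j l = (∑ f ∈ Pool.Agent.W870.Pg.LF (2 * j),
      ∑ g ∈ Pool.Agent.W870.Pg.LF (2 * l),
      ((min (width (2 * j) f) (width (2 * l) g) : ℕ) : ℝ) *
        ((area (2 * j) f : ℝ) + (area (2 * l) g : ℝ))) / (4 * j) / (4 * (l : ℝ)) := h
  rw [h2]
  congr 2
  unfold Pool.Agent.Q228.SAP.MW2
  refine Finset.sum_congr rfl fun f _ => Finset.sum_congr rfl fun g _ => ?_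
  rw [pow_one]
  push_cast
  rfl

/-- **Theorem.** Let `p_{2n}` be the number of self-avoiding polygons of perimeter `2n` on `ℤ²`, up
to translation, and `A_n` their mean area. There is a constant `K` such that
(1) `√i ∑_{i ≤ j ≤ n - i} p_{2j} p_{2(n-j)} (A_j + A_{n-j}) ≤ K (log n)^2 p_{2n} A_n` for all
`2 ≤ i ≤ n / 2`;
(2) `n p_{2n} p_{2m} (A_n + A_m) ≤ K (log m)^2 p_{2(n+m)} A_{n+m}` for all `2 ≤ n ≤ m`;
(3) `∑_{2 ≤ j ≤ n - 2} p_{2j} p_{2(n-j)} E[min(W, W') (a + a')] ≤ K (log n)^3 p_{2n} A_n` for all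
`n ≥ 2`, where `(W, a)` and `(W', a')` are the width and the area of two independent uniform
polygons of perimeters `2j` and `2(n-j)`. -/
theorem result : ∃ K : ℝ,
    (∀ i n : ℕ, 2 ≤ i → 2 * i ≤ n →
      Real.sqrt i * ∑ j ∈ Finset.Icc i (n - i), p j * p (n - j) * (A j + A (n - j)) ≤
        K * Real.log n ^ 2 * (p n * A n)) ∧
    (∀ n m : ℕ, 2 ≤ n → n ≤ m →
      n * (p n * p m * (A n + A m)) ≤ K * Real.log m ^ 2 * (p (n + m) * A (n + m))) ∧
    ∀ n : ℕ, 2 ≤ n → ∑ j ∈ Finset.Icc 2 (n - 2), p j * p (n - j) * B j (n - j) ≤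
      K * Real.log n ^ 3 * (p n * A n) := by
  obtain ⟨K1, hK1, h1⟩ := Pool.Agent.Q228.SAP.joinA_all 1
  obtain ⟨K2, hK2, h2⟩ := Pool.Agent.Q228.SAP.superA 1
  obtain ⟨K3, hK3, h3⟩ := Pool.Agent.Q228.SAP.min_k 1
  have hmu := H981.mu_pos
  have hpos : ∀ m, 2 ≤ m → 0 < p m * A m := fun m hm => by
    rw [p_eq, A_eq]
    exact mul_pos (Pool.Agent.H739K.PP_pos hm) (Pool.Agent.H739K.MOM.MK_pos 1 m hm)
  have eG : ∀ n, Pool.Agent.Q228.SAP.aG 1 n * H981.mu ^ (2 * n) = p n * A n := by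
    intro n
    rw [Pool.Agent.Q228.SAP.aG_PP, p_eq, A_eq]
  have ep : ∀ j l, 2 ≤ j → 2 ≤ l → p j * p l * (A j + A l) =
      Pool.Agent.Q228.SAP.pk 1 j l * H981.mu ^ (2 * (j + l)) := by
    intro j l hj hl
    rw [Pool.Agent.Q228.SAP.pk_one hj hl, p_eq, p_eq, A_eq, A_eq]
  refine ⟨K1 + K2 + K3, fun i n hi hin => ?_, fun n m hn hnm => ?_, fun n hn => ?_⟩
  · have h := h1 i n hi hin
    have e : ∑ j ∈ Finset.Icc i (n - i), p j * p (n - j) * (A j + A (n - j)) =
        (∑ j ∈ Finset.Icc i (n - i), Pool.Agent.Q228.SAP.pk 1 j (n - j)) * H981.mu ^ (2 * n) := by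
      rw [Finset.sum_mul]
      refine Finset.sum_congr rfl fun j hj => ?_
      rw [Finset.mem_Icc] at hj
      rw [ep j (n - j) (by omega) (by omega), show 2 * (j + (n - j)) = 2 * n by omega]
    have hp := hpos n (by omega)
    rw [e, ← mul_assoc]
    calc _ ≤ K1 * Real.log n ^ 2 * Pool.Agent.Q228.SAP.aG 1 n * H981.mu ^ (2 * n) :=
          mul_le_mul_of_nonneg_right h (by positivity)
      _ = K1 * Real.log n ^ 2 * (p n * A n) := by rw [mul_assoc, eG]
      _ ≤ _ := by
          have : 0 ≤ (K2 + K3) * Real.log n ^ 2 * (p n * A n) := by positivity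
          linarith
  · have h := h2 n m hn hnm
    have hp := hpos (n + m) (by omega)
    rw [ep n m hn (by omega), ← mul_assoc]
    calc _ ≤ K2 * Real.log m ^ 2 * Pool.Agent.Q228.SAP.aG 1 (n + m) * H981.mu ^ (2 * (n + m)) :=
          mul_le_mul_of_nonneg_right h (by positivity)
      _ = K2 * Real.log m ^ 2 * (p (n + m) * A (n + m)) := by rw [mul_assoc, eG]
      _ ≤ _ := by
          have : 0 ≤ (K1 + K3) * Real.log m ^ 2 * (p (n + m) * A (n + m)) := by positivity
          linarith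
  · have h := h3 n hn
    have e : ∑ j ∈ Finset.Icc 2 (n - 2), p j * p (n - j) * B j (n - j) =
        ∑ j ∈ Finset.Icc 2 (n - 2), Pool.Agent.Q228.SAP.MW2 1 j (n - j) / (4 * j) /
          (4 * ((n - j : ℕ) : ℝ)) := by
      refine Finset.sum_congr rfl fun j hj => ?_
      rw [Finset.mem_Icc] at hj
      exact B_eq hj.1 (by omega)
    have hp := hpos n hn
    have hl : 0 ≤ Real.log (n : ℝ) := Real.log_natCast_nonneg n
    rw [e]
    rw [eG] at h
    refine h.trans ?_
    have : 0 ≤ (K1 + K2) * Real.log n ^ 3 * (p n * A n) := by positivity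
    linarith

end Pool.Agent.Results.MP_2250b1_co.AreaJoin
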