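import Pool.Agent.Q228.SAP.Mean

/-!
Self-avoiding polygons on the square lattice: the mean area `A_n` at perimeter `2 n` times the
number `p_{2n}` of polygons is at most `K √n μ^(2n)`, the sum of `A_j p_{2j} μ^(-2j)` over `j ≤ n`
is at most `K n`, and the number of polygons of perimeter `2 n` and area at least `a` is at most
`K μ^(2n) / √(a n)`.
-/

open Filter Topology

namespace Pool.Agent.Results.MP_2250b1_co.MeanAreaTimesCount

/-- the number of `n`-step self-avoiding walks on `ℤ²` started at the origin -/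
noncomputable def c (n : ℕ) : ℕ :=
  Nat.card {f : Fin (n + 1) → ℤ × ℤ // f 0 = 0 ∧ Function.Injective f ∧
    ∀ i : Fin n, |(f i.succ).1 - (f i.castSucc).1| + |(f i.succ).2 - (f i.castSucc).2| = 1}

/-- a closed nearest-neighbour loop on `ℤ²` with `m` steps, rooted at the origin and oriented,
that visits no vertex twice -/
def IsLoop (m : ℕ) (f : ZMod m → ℤ × ℤ) : Prop :=
  f 0 = 0 ∧ Function.Injective f ∧
    ∀ i : ZMod m, |(f (i + 1)).1 - (f i).1| + |(f (i + 1)).2 - (f i).2| = 1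

/-- the edge from `f k` to `f (k+1)` is horizontal, joins the columns `x = a` and `x = a + 1`, and
has height larger than `b`: it lies above the unit cell `[a, a+1] × [b, b+1]` -/
def Above (m : ℕ) (f : ZMod m → ℤ × ℤ) (a b : ℤ) (k : ZMod m) : Prop :=
  (((f k).1 = a ∧ (f (k + 1)).1 = a + 1) ∨ ((f k).1 = a + 1 ∧ (f (k + 1)).1 = a)) ∧ b < (f k).2

/-- the unit cell `[a, a+1] × [b, b+1]` is enclosed by the loop: the vertical ray from the cell
upwards crosses an odd number of edges -/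
def Encl (m : ℕ) (f : ZMod m → ℤ × ℤ) (c : ℤ × ℤ) : Prop :=
  Odd (Nat.card {k : ZMod m // Above m f c.1 c.2 k})

/-- the area: the number of unit cells enclosed by the loop -/
noncomputable def area (m : ℕ) (f : ZMod m → ℤ × ℤ) : ℕ := Nat.card {c : ℤ × ℤ // Encl m f c}

/-- the number of self-avoiding polygons of perimeter `2n` on `ℤ²` up to translation: the number
of rooted oriented loops with `2n` steps, divided by `4n` (the choices of the starting point and
of the orientation) -/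
noncomputable def p (n : ℕ) : ℝ :=
  (Nat.card {f : ZMod (2 * n) → ℤ × ℤ // IsLoop (2 * n) f} : ℝ) / (4 * (n : ℝ))

/-- the number of self-avoiding polygons of perimeter `2n` and area at least `a` -/
noncomputable def pa (n a : ℕ) : ℝ :=
  (Nat.card {f : ZMod (2 * n) → ℤ × ℤ // IsLoop (2 * n) f ∧ a ≤ area (2 * n) f} : ℝ) /
    (4 * (n : ℝ))

/-- the mean area of the self-avoiding polygons of perimeter `2 n` -/
noncomputable def A (n : ℕ) : ℝ :=
  (∑ᶠ f ∈ {f : ZMod (2 * n) → ℤ × ℤ | IsLoop (2 * n) f}, (area (2 * n) f : ℝ)) /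
    ({f : ZMod (2 * n) → ℤ × ℤ | IsLoop (2 * n) f}.ncard : ℝ)

lemma c_eq (n : ℕ) : (c n : ℝ) = H981.cr' n := by
  rw [H981.cr'_eq]
  unfold c H981.C H981.IsSAW
  congr 1
  apply Nat.card_congr
  apply Equiv.subtypeEquivRight
  intro f
  constructor
  · rintro ⟨h0, h1, h2⟩
    exact ⟨h0, h2, h1⟩
  · rintro ⟨h0, h2, h1⟩
    exact ⟨h0, h1, h2⟩

lemma p_eq (n : ℕ) : p n = H981.PP n := rfl

lemma pa_eq {n : ℕ} (hn : 2 ≤ n) (a : ℕ) :
    pa n a = (Pool.Agent.Q228.SAP.an n a : ℝ) / (4 * (n : ℝ)) := by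
  have h := Pool.Agent.Q228.SAP.card_an hn a
  unfold pa
  rw [← h]
  rfl

lemma A_eq (n : ℕ) : A n =
    Pool.Agent.H739K.me n (fun f => (Pool.Agent.H924P.area (2 * n) f : ℝ) ^ (0 + 1)) := by
  simp only [zero_add, pow_one]
  rfl

/-- **Theorem.** Let `μ` be the connective constant of `ℤ²`, `p_{2n}` the number of self-avoiding
polygons of perimeter `2n` up to translation, `A_n` their mean area and `p(n, a)` the number of
those with area at least `a`. There is a constant `K` such that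
(1) `A_n p_{2n} ≤ K √n μ^(2n)` for all `n ≥ 2`;
(2) the sum of `A_j p_{2j} μ^(-2j)` over `2 ≤ j ≤ n` is at most `K n` for all `n ≥ 2`;
(3) `p(n, a) ≤ (K / √(a n)) μ^(2n)` for all `n ≥ 2` and `a ≥ 1`;
(4) the sum of `p(j, a) μ^(-2j)` over `2 ≤ j ≤ m` is at most `K / √a`, for all `a ≥ 1` and `m`. -/
theorem result : ∃ μ : ℝ, 0 < μ ∧
    Tendsto (fun n : ℕ => (c n : ℝ) ^ ((1:ℝ) / (n : ℝ))) atTop (𝓝 μ) ∧
    ∃ K : ℝ,
      (∀ n : ℕ, 2 ≤ n → A n * p n ≤ K * Real.sqrt n * μ ^ (2 * n) ∧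
        ∑ j ∈ Finset.Icc 2 n, A j * p j / μ ^ (2 * j) ≤ K * n) ∧
      ∀ a : ℕ, 1 ≤ a →
        (∀ n : ℕ, 2 ≤ n → pa n a ≤ K / (Real.sqrt a * Real.sqrt n) * μ ^ (2 * n)) ∧
        ∀ m : ℕ, ∑ j ∈ Finset.Icc 2 m, pa j a / μ ^ (2 * j) ≤ K / Real.sqrt a := by
  refine ⟨H981.mu, H981.mu_pos, ?_, ?_⟩
  · simp only [c_eq]
    exact H981.tendsto_root
  · obtain ⟨K1, hK1, h1⟩ := Pool.Agent.Q228.SAP.area_moment 0
    obtain ⟨K2, hK2, h2⟩ := Pool.Agent.Q228.SAP.area_sum 0
    obtain ⟨K3, hK3, h3⟩ := Pool.Agent.Q228.SAP.an_bound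
    obtain ⟨K4, hK4, h4⟩ := Pool.Agent.Q228.SAP.an_tail
    have hmu := H981.mu_pos
    refine ⟨K1 + K2 + K3 + K4, fun n hn => ⟨?_, ?_⟩, fun a ha => ⟨fun n hn => ?_, fun m => ?_⟩⟩
    · rw [A_eq, p_eq]
      refine (h1 n hn).trans ?_
      apply mul_le_mul_of_nonneg_right _ (pow_pos hmu _).le
      rw [mul_zero, pow_zero, one_mul]
      apply mul_le_mul_of_nonneg_right _ (Real.sqrt_nonneg _)
      linarith
    · have e : ∑ j ∈ Finset.Icc 2 n, A j * p j / H981.mu ^ (2 * j) =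
          ∑ j ∈ Finset.Icc 2 n, Pool.Agent.H739K.me j
            (fun f => (Pool.Agent.H924P.area (2 * j) f : ℝ) ^ (0 + 1)) * H981.PP j /
              H981.mu ^ (2 * j) := by
        refine Finset.sum_congr rfl fun j _ => ?_
        rw [A_eq, p_eq]
      rw [e]
      refine (h2 n hn).trans ?_
      rw [mul_zero, zero_add, pow_one]
      apply mul_le_mul_of_nonneg_right _ (Nat.cast_nonneg _)
      linarith
    · rw [pa_eq hn]
      refine (h3 n hn a ha).trans ?_
      apply mul_le_mul_of_nonneg_right _ (pow_pos hmu _).le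
      apply div_le_div_of_nonneg_right _ (mul_nonneg (Real.sqrt_nonneg _) (Real.sqrt_nonneg _))
      linarith
    · have e : ∑ j ∈ Finset.Icc 2 m, pa j a / H981.mu ^ (2 * j) =
          ∑ j ∈ Finset.Icc 2 m, (Pool.Agent.Q228.SAP.an j a : ℝ) / (4 * j) / H981.mu ^ (2 * j) := by
        refine Finset.sum_congr rfl fun j hj => ?_
        rw [pa_eq (Finset.mem_Icc.mp hj).1]
      rw [e]
      refine (h4 a ha m).trans ?_
      apply div_le_div_of_nonneg_right _ (Real.sqrt_nonneg _)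
      linarith

end Pool.Agent.Results.MP_2250b1_co.MeanAreaTimesCount
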