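import Pool.Agent.Q215.SAW.PolZ

/-!
Self-avoiding polygons on the square lattice: the asymptotic formulas for the moments of the area
and for the number of polygons need only be proved along sequences of perimeters with gaps `o(√n)`.
-/

set_option autoImplicit false

namespace Pool.Agent.Results.MP_2250b1_co.SharpJoint

open Filter Topology

/-- a closed nearest-neighbour loop on `ℤ²` with `m` steps, rooted at the origin and oriented,
that visits no vertex twice -/
def IsLoop (m : ℕ) (f : ZMod m → ℤ × ℤ) : Prop :=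
  f 0 = 0 ∧ Function.Injective f ∧
    ∀ i : ZMod m, |(f (i + 1)).1 - (f i).1| + |(f (i + 1)).2 - (f i).2| = 1

/-- the edge from `f k` to `f (k+1)` is horizontal, joins the columns `x = a` and `x = a + 1`, and
has height larger than `b`: it lies above the unit cell `[a, a+1] × [b, b+1]` -/
def Above (m : ℕ) (f : ZMod m → ℤ × ℤ) (a b : ℤ) (k : ZMod m) : Prop :=
  (((f k).1 = a ∧ (f (k + 1)).1 = a + 1) ∨ ((f k).1 = a + 1 ∧ (f (k + 1)).1 = a)) ∧ b < (f k).2

/-- the unit cell `[a, a+1] × [b, b+1]` is enclosed by the loop: the vertical ray from the cell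
upwards crosses an odd number of edges -/
def Encl (m : ℕ) (f : ZMod m → ℤ × ℤ) (c : ℤ × ℤ) : Prop :=
  Odd (Nat.card {k : ZMod m // Above m f c.1 c.2 k})

/-- the area: the number of unit cells enclosed by the loop -/
noncomputable def area (m : ℕ) (f : ZMod m → ℤ × ℤ) : ℕ := Nat.card {c : ℤ × ℤ // Encl m f c}

/-- the number of self-avoiding polygons of perimeter `2n` on `ℤ²` up to translation: the number
of rooted oriented loops with `2n` steps, divided by `4n` (the choices of the starting point and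
of the orientation) -/
noncomputable def p (n : ℕ) : ℝ :=
  (Nat.card {f : ZMod (2 * n) → ℤ × ℤ // IsLoop (2 * n) f} : ℝ) / (4 * (n : ℝ))

/-- the mean of the `k`-th power of the area of the self-avoiding polygons of perimeter `2 n`;
`A 1 n` is the mean area -/
noncomputable def A (k n : ℕ) : ℝ :=
  (∑ᶠ f ∈ {f : ZMod (2 * n) → ℤ × ℤ | IsLoop (2 * n) f}, (area (2 * n) f : ℝ) ^ k) /
    ({f : ZMod (2 * n) → ℤ × ℤ | IsLoop (2 * n) f}.ncard : ℝ)

/-- `p_{2n} / (μ^{2n} n^g)` -/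
noncomputable def growth (μ g : ℝ) (n : ℕ) : ℝ := p n / (μ ^ (2 * n) * (n : ℝ) ^ g)

/-- `E[area^k] / n^h` -/
noncomputable def size (k : ℕ) (h : ℝ) (n : ℕ) : ℝ := A k n / (n : ℝ) ^ h

/-- the gaps of `t` are `o(√t)` -/
def Small (t : ℕ → ℕ) : Prop :=
  Tendsto t atTop atTop ∧ Tendsto (fun j => ((t (j + 1) : ℝ) - t j) / √(t j : ℝ)) atTop (𝓝 0)

/-- the gaps of `t` are `O(√t)` -/
def Root (t : ℕ → ℕ) : Prop :=
  Tendsto t atTop atTop ∧ ∃ η : ℝ, ∀ᶠ j in atTop, (t (j + 1) : ℝ) - t j ≤ η * √(t j : ℝ)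

/-- **Theorem.** Let `p_{2n}` be the number of self-avoiding polygons of perimeter `2n` on `ℤ²` up
to translation, `μ > 0`, `g`, `h` real, `k` a natural number, and `E_n[area^k]` the mean of the
`k`-th power of their area (`k = 1`: the mean area).

(1) If `p_{2n} / (μ^{2n} n^g) → B > 0` along the sequence `t` and `E_n[area^k] / n^h → c > 0` along
the sequence `u`, and the gaps of `t` and `u` are `o(√t)` and `o(√u)`, then both hold along all `n`.

(2) If the gaps of `t` and `u` are `O(√t)` and `O(√u)` (for instance the perfect squares) and the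
two quotients lie between two positive constants along `t` and `u` respectively, then they lie
between two positive constants for all large `n`. -/
theorem result (μ : ℝ) (hμ : 0 < μ) (k : ℕ) (g h : ℝ) :
    (∀ (t u : ℕ → ℕ) (B c : ℝ), Small t → Small u → 0 < B → 0 < c →
      Tendsto (fun j => growth μ g (t j)) atTop (𝓝 B) →
      Tendsto (fun j => size k h (u j)) atTop (𝓝 c) →
      Tendsto (growth μ g) atTop (𝓝 B) ∧ Tendsto (size k h) atTop (𝓝 c)) ∧
    (∀ (t u : ℕ → ℕ) (a₁ b₁ a₂ b₂ : ℝ), Root t → Root u → 0 < a₁ → 0 < a₂ →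
      (∀ᶠ j in atTop, a₁ ≤ growth μ g (t j) ∧ growth μ g (t j) ≤ b₁) →
      (∀ᶠ j in atTop, a₂ ≤ size k h (u j) ∧ size k h (u j) ≤ b₂) →
      ∃ α₁ β₁ α₂ β₂ : ℝ, 0 < α₁ ∧ 0 < α₂ ∧
        (∀ᶠ n in atTop, α₁ ≤ growth μ g n ∧ growth μ g n ≤ β₁) ∧
        (∀ᶠ n in atTop, α₂ ≤ size k h n ∧ size k h n ≤ β₂)) ∧
    Root (fun j => (j + 1) ^ 2) := by
  obtain ⟨K0, hK0, hconv0⟩ := Q215.SAW.PolZ.conv0
  obtain ⟨K1, hK1, hconv1⟩ := Pool.Agent.Q228.SAP.area_conv k
  have hν : 0 < μ ^ 2 := pow_pos hμ 2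
  have hp0 : ∀ n, 2 ≤ n → 0 < H981.PP n := fun n hn => Q215.SAW.PolZ.p_pos hn
  obtain ⟨c1, hc1⟩ : ∃ c1 : ℕ → ℝ, c1 = fun n => Pool.Agent.H739K.me n
    (fun f => (Pool.Agent.H924P.area (2 * n) f : ℝ) ^ k) * H981.PP n := ⟨_, rfl⟩
  have hA : ∀ n, A k n = Pool.Agent.H739K.me n
    (fun f => (Pool.Agent.H924P.area (2 * n) f : ℝ) ^ k) := fun _ => rfl
  have hApos : ∀ n, 2 ≤ n → 0 < A k n := fun n hn => Pool.Agent.H739K.MOM.MK_pos k n hn
  have hp1 : ∀ n, 2 ≤ n → 0 < c1 n := fun n hn => by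
    rw [hc1]
    exact mul_pos (hApos n hn) (hp0 n hn)
  have hconv1' : ∀ m : ℕ, 2 ≤ m → c1 (m + 1) ^ 2 ≤ (1 + K1 / m) * (c1 m * c1 (m + 2)) := by
    intro m hm
    rw [hc1]
    exact hconv1 m hm
  have hgr : ∀ n, growth μ g n = Q215.SAW.PolZ.quo H981.PP (μ ^ 2) g n := by
    intro n
    unfold growth Q215.SAW.PolZ.quo
    rw [← pow_mul]
    rfl
  have hgr' : growth μ g = Q215.SAW.PolZ.quo H981.PP (μ ^ 2) g := funext hgr
  have hprod : ∀ n, 1 ≤ n → Q215.SAW.PolZ.quo c1 (μ ^ 2) (g + h) n = growth μ g n * size k h n := by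
    intro n hn
    have hn0 : (0 : ℝ) < n := by exact_mod_cast hn
    unfold growth size Q215.SAW.PolZ.quo
    rw [hc1, hA, Real.rpow_add hn0, ← pow_mul]
    have h1 : ((n : ℝ) ^ g) ≠ 0 := (Real.rpow_pos_of_pos hn0 _).ne'
    have h2 : ((n : ℝ) ^ h) ≠ 0 := (Real.rpow_pos_of_pos hn0 _).ne'
    have h3 : p n = H981.PP n := rfl
    rw [h3]
    field_simp
  have hgpos : ∀ n, 2 ≤ n → 0 < growth μ g n := fun n hn => by
    have hn0 : (0 : ℝ) < n := by exact_mod_cast (show 0 < n by omega)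
    exact div_pos (hp0 n hn) (mul_pos (pow_pos hμ _) (Real.rpow_pos_of_pos hn0 _))
  refine ⟨?_, ?_, Q215.SAW.GapF.squares_root.1, 3, Q215.SAW.GapF.squares_root.2⟩
  · rintro t u B c ⟨ht, hst⟩ ⟨hu, hsu⟩ hB hc h1 h2
    have k1 : Tendsto (growth μ g) atTop (𝓝 B) := by
      rw [hgr'] at h1 ⊢
      exact Q215.SAW.PolZ.quo_lim hν hp0 hK0 hconv0 g hB ht hst h1
    refine ⟨k1, ?_⟩
    have k2 : Tendsto (fun j => Q215.SAW.PolZ.quo c1 (μ ^ 2) (g + h) (u j)) atTop (𝓝 (B * c)) := by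
      refine ((k1.comp hu).mul h2).congr' ?_
      filter_upwards [hu.eventually_ge_atTop 1] with j hj
      exact (hprod _ hj).symm
    have k3 := Q215.SAW.PolZ.quo_lim hν hp1 hK1 hconv1' (g + h) (mul_pos hB hc) hu hsu k2
    have k4 := k3.div k1 hB.ne'
    rw [mul_div_cancel_left₀ _ hB.ne'] at k4
    refine k4.congr' ?_
    filter_upwards [eventually_ge_atTop 2] with n hn
    show Q215.SAW.PolZ.quo c1 (μ ^ 2) (g + h) n / growth μ g n = _
    rw [hprod n (by omega), mul_div_cancel_left₀ _ (hgpos n hn).ne']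
  · rintro t u a₁ b₁ a₂ b₂ ⟨ht, η₁, hst⟩ ⟨hu, η₂, hsu⟩ ha₁ ha₂ h1 h2
    obtain ⟨α₁, β₁, hα₁, k1⟩ := Q215.SAW.PolZ.quo_bd hν hp0 hK0 hconv0 g ha₁ ht hst (b := b₁) (by
      rw [hgr'] at h1
      exact h1)
    rw [← hgr'] at k1
    obtain ⟨α₂, β₂, hα₂, k2⟩ := Q215.SAW.PolZ.quo_bd hν hp1 hK1 hconv1' (g + h)
      (mul_pos hα₁ ha₂) hu hsu (b := β₁ * b₂) (by
        filter_upwards [hu.eventually_ge_atTop 1, hu.eventually k1, h2] with j g1 g2 g3
        rw [hprod _ g1]
        have g4 : 0 < size k h (u j) := ha₂.trans_le g3.1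
        have g5 : 0 < growth μ g (u j) := hα₁.trans_le g2.1
        exact ⟨mul_le_mul g2.1 g3.1 ha₂.le g5.le,
          mul_le_mul g2.2 g3.2 g4.le (g5.le.trans g2.2)⟩)
    refine ⟨α₁, β₁, α₂ / β₁, β₂ / α₁, hα₁, ?_, k1, ?_⟩
    · obtain ⟨m, hm⟩ := k1.exists
      exact div_pos hα₂ (hα₁.trans_le (hm.1.trans hm.2))
    · filter_upwards [k1, k2, eventually_ge_atTop 1] with m g1 g2 g3
      rw [hprod m g3] at g2
      have g5 : 0 < growth μ g m := hα₁.trans_le g1.1
      have hβ : 0 < β₁ := g5.trans_le g1.2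
      have g6 : 0 < size k h m := by
        by_contra hc
        push Not at hc
        have := mul_nonpos_of_nonneg_of_nonpos g5.le hc
        linarith [g2.1]
      constructor
      · rw [div_le_iff₀ hβ]
        calc α₂ ≤ growth μ g m * size k h m := g2.1
          _ ≤ β₁ * size k h m := mul_le_mul_of_nonneg_right g1.2 g6.le
          _ = _ := mul_comm _ _
      · rw [le_div_iff₀ hα₁]
        calc size k h m * α₁ ≤ size k h m * growth μ g m :=
              mul_le_mul_of_nonneg_left g1.1 g6.le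
          _ = growth μ g m * size k h m := mul_comm _ _
          _ ≤ β₂ := g2.2

end Pool.Agent.Results.MP_2250b1_co.SharpJoint
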