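import Pool.Agent.Q228.SAP.BV2

/-!
Self-avoiding polygons on the square lattice: the total area `p_{2n} A_n` of the polygons of
perimeter `2 n` is almost log-convex in `n`, with an error factor `1 + K / n`; the ratios
`A_{n+1} / A_n` of the consecutive mean areas have bounded variation on every block `n ≤ m ≤ 2 n`,
with a bound which does not depend on `n`.
-/

namespace Pool.Agent.Results.MP_2250b1_co.TotalAreaConvexity

/-- a closed nearest-neighbour loop on `ℤ²` with `m` steps, rooted at the origin and oriented,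
that visits no vertex twice -/
def IsLoop (m : ℕ) (f : ZMod m → ℤ × ℤ) : Prop :=
  f 0 = 0 ∧ Function.Injective f ∧
    ∀ i : ZMod m, |(f (i + 1)).1 - (f i).1| + |(f (i + 1)).2 - (f i).2| = 1

/-- the edge from `f k` to `f (k+1)` is horizontal, joins the columns `x = a` and `x = a + 1`, and
has height larger than `b`: it lies above the unit cell `[a, a+1] × [b, b+1]` -/
def Above (m : ℕ) (f : ZMod m → ℤ × ℤ) (a b : ℤ) (k : ZMod m) : Prop :=
  (((f k).1 = a ∧ (f (k + 1)).1 = a + 1) ∨ ((f k).1 = a + 1 ∧ (f (k + 1)).1 = a)) ∧ b < (f k).2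

/-- the unit cell `[a, a+1] × [b, b+1]` is enclosed by the loop: the vertical ray from the cell
upwards crosses an odd number of edges -/
def Encl (m : ℕ) (f : ZMod m → ℤ × ℤ) (c : ℤ × ℤ) : Prop :=
  Odd (Nat.card {k : ZMod m // Above m f c.1 c.2 k})

/-- the area: the number of unit cells enclosed by the loop -/
noncomputable def area (m : ℕ) (f : ZMod m → ℤ × ℤ) : ℕ := Nat.card {c : ℤ × ℤ // Encl m f c}

/-- the number of self-avoiding polygons of perimeter `2n` on `ℤ²` up to translation: the number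
of rooted oriented loops with `2n` steps, divided by `4n` (the choices of the starting point and
of the orientation) -/
noncomputable def p (n : ℕ) : ℝ :=
  (Nat.card {f : ZMod (2 * n) → ℤ × ℤ // IsLoop (2 * n) f} : ℝ) / (4 * (n : ℝ))

/-- the mean area of the self-avoiding polygons of perimeter `2 n` -/
noncomputable def A (n : ℕ) : ℝ :=
  (∑ᶠ f ∈ {f : ZMod (2 * n) → ℤ × ℤ | IsLoop (2 * n) f}, (area (2 * n) f : ℝ)) /
    ({f : ZMod (2 * n) → ℤ × ℤ | IsLoop (2 * n) f}.ncard : ℝ)

lemma p_eq (n : ℕ) : p n = H981.PP n := rfl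

lemma A_eq (n : ℕ) : A n = Pool.Agent.H739K.MOM.MK 1 n := by
  unfold Pool.Agent.H739K.MOM.MK
  simp only [pow_one]
  rfl

/-- **Theorem.** Let `p_{2n}` be the number of self-avoiding polygons of perimeter `2n` on `ℤ²`, up
to translation, and `A_n` their mean area. There is a constant `K` such that
(1) `(p_{2m+2} A_{m+1})^2 ≤ (1 + K / m) (p_{2m} A_m) (p_{2m+4} A_{m+2})` for all `m ≥ 2`;
(2) `∑_{n ≤ m ≤ 2n} |A_{m+2} / A_{m+1} - A_{m+1} / A_m| ≤ K` for all `n ≥ 2`. -/
theorem result : ∃ K : ℝ,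
    (∀ m : ℕ, 2 ≤ m → (p (m + 1) * A (m + 1)) ^ 2 ≤
      (1 + K / m) * ((p m * A m) * (p (m + 2) * A (m + 2)))) ∧
    ∀ n : ℕ, 2 ≤ n → ∑ m ∈ Finset.Icc n (2 * n), |A (m + 2) / A (m + 1) - A (m + 1) / A m| ≤ K := by
  obtain ⟨K1, hK1, h1⟩ := Pool.Agent.Q228.SAP.area_conv 1
  obtain ⟨K2, h2⟩ := (Pool.Agent.Q228.SAP.bvar_area 1).var
  have hpos : ∀ m, 2 ≤ m → 0 < p m * A m := fun m hm => by
    rw [p_eq, A_eq]
    exact mul_pos (Pool.Agent.H739K.PP_pos hm) (Pool.Agent.H739K.MOM.MK_pos 1 m hm)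
  refine ⟨K1 + |K2|, fun m hm => ?_, fun n hn => ?_⟩
  · have h := h1 m hm
    have e : ∀ N, p N * A N = Pool.Agent.H739K.me N
        (fun f => (Pool.Agent.H924P.area (2 * N) f : ℝ) ^ 1) * H981.PP N := by
      intro N
      rw [p_eq, A_eq, mul_comm]
      rfl
    rw [← e, ← e, ← e] at h
    refine h.trans ?_
    apply mul_le_mul_of_nonneg_right _ (mul_pos (hpos m hm) (hpos (m + 2) (by omega))).le
    have : K1 / (m : ℝ) ≤ (K1 + |K2|) / m := by
      apply div_le_div_of_nonneg_right _ (Nat.cast_nonneg _)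
      have := abs_nonneg K2
      linarith
    linarith
  · have h := h2 n hn
    have e : ∑ m ∈ Finset.Icc n (2 * n), |A (m + 2) / A (m + 1) - A (m + 1) / A m| =
        ∑ m ∈ Finset.Icc n (2 * n), |Pool.Agent.H739K.MOM.MK 1 (m + 1 + 1) /
          Pool.Agent.H739K.MOM.MK 1 (m + 1) - Pool.Agent.H739K.MOM.MK 1 (m + 1) /
          Pool.Agent.H739K.MOM.MK 1 m| := by
      refine Finset.sum_congr rfl fun m _ => ?_
      rw [A_eq, A_eq, A_eq]
    rw [e]
    have h3 := le_abs_self K2
    linarith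

end Pool.Agent.Results.MP_2250b1_co.TotalAreaConvexity
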